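import Mathlib

set_option autoImplicit false
open Set Filter Topology TopologicalSpace

namespace Pool.Agent.H.MP_866953

section PS
variable {α : Type}

def PS (_a : α) (_F : Filter α) : Type := α

instance (a : α) (F : Filter α) : TopologicalSpace (PS a F) where
  IsOpen U := a ∈ U → (show Set α from U) ∈ F
  isOpen_univ := fun _ => univ_mem
  isOpen_inter := fun _ _ h1 h2 h => inter_mem (h1 h.1) (h2 h.2)
  isOpen_sUnion := fun _ h ⟨t, ht, ha⟩ => mem_of_superset (h t ht ha) (subset_sUnion_of_mem ht)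

variable {a : α} {F : Filter α}

theorem op (U : Set (PS a F)) : IsOpen U ↔ (a ∈ U → (show Set α from U) ∈ F) := Iff.rfl

theorem cont (f : PS a F → ℝ) : Continuous f ↔ Tendsto (show α → ℝ from f) F (𝓝 (f a)) := by
  constructor
  · intro h s hs
    obtain ⟨t, ht, ho, hm⟩ := mem_nhds_iff.1 hs
    exact mem_of_superset ((ho.preimage h) hm) (preimage_mono ht)
  · intro h
    exact ⟨fun s hs ha => h (hs.mem_nhds ha)⟩

theorem t4 (hF : F ≤ cofinite) : T4Space (PS a F) := by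
  have : T1Space (PS a F) := ⟨fun x => ⟨fun _ => hF (finite_singleton x).compl_mem_cofinite⟩⟩
  have key : ∀ s t : Set (PS a F), IsClosed t → a ∉ t → Disjoint s t → SeparatedNhds s t :=
    fun s t ht ha hd => ⟨tᶜ, t, ht.isOpen_compl, fun h => absurd h ha, hd.subset_compl_right,
      Subset.rfl, disjoint_compl_left⟩
  have : NormalSpace (PS a F) := ⟨fun s t hs ht hd => by
    by_cases h : (show PS a F from a) ∈ t
    · exact (key t s hs (fun h' => disjoint_left.1 hd h' h) hd.symm).symm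
    · exact key s t ht h hd⟩
  exact {}

theorem base (hF : F ≤ cofinite) : ∃ e : (PS a F → ℝ) ≃ᵤ (α → ℝ),
    ∀ f, Continuous f ↔ Tendsto (e f) F (𝓝 0) := by
  classical
  suffices h : ∃ e : (α → ℝ) ≃ᵤ (α → ℝ), ∀ f x, x ≠ a → e f x = f x - f a by
    obtain ⟨e, he⟩ := h
    refine ⟨e, fun f => ?_⟩
    rw [cont, ← tendsto_sub_nhds_zero_iff]
    refine tendsto_congr' ?_
    filter_upwards [hF (finite_singleton a).compl_mem_cofinite] with x hx
    exact (he f x hx).symm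
  have p := fun x : α => Pi.uniformContinuous_proj (fun _ : α => ℝ) x
  refine ⟨⟨⟨fun f x => if x = a then f a else f x - f a, fun g x => if x = a then g a else g x + g a,
    fun f => funext fun x => ?_, fun f => funext fun x => ?_⟩, uniformContinuous_pi.2 fun x => ?_,
    uniformContinuous_pi.2 fun x => ?_⟩, fun f x hx => if_neg hx⟩
  · by_cases h : x = a <;> simp [h]
  · by_cases h : x = a <;> simp [h]
  · by_cases h : x = a
    · simpa [h] using p a
    · simpa [h] using (p x).sub (p a)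
  · by_cases h : x = a
    · simpa [h] using p a
    · simpa [h] using (p x).add (p a)

theorem fin (ht : ∀ S : Set α, S.Infinite → ∃ I ⊆ S, I.Infinite ∧ Iᶜ ∈ F)
    (K : Set (PS a F)) (hK : IsCompact K) : K.Finite := by
  by_contra h
  obtain ⟨I, h1, h2, h3⟩ := ht _ ((show K.Infinite from h).sdiff (finite_singleton a))
  have ha : a ∉ I := fun h => (h1 h).2 rfl
  have hc : IsCompact (show Set (PS a F) from I) :=
    hK.of_isClosed_subset ⟨fun _ => h3⟩ (h1.trans sdiff_subset)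
  obtain ⟨t, ht, hs⟩ := hc.elim_nhds_subcover (fun x => {x}) fun x hx =>
    IsOpen.mem_nhds (fun h => absurd (h ▸ hx) ha) rfl
  exact h2 (t.finite_toSet.subset fun x hx => by simpa using hs hx)

end PS

noncomputable def mm (n : ℕ) (g : ℕ × ℕ → ℝ) : ℝ :=
  (Finset.range (n + 1)).inf' Finset.nonempty_range_add_one fun a =>
    (Finset.range (n + 1)).sup' Finset.nonempty_range_add_one fun b => g (a, b)

theorem mm_le (n : ℕ) (g : ℕ × ℕ → ℝ) (c : ℝ) :
    mm n g ≤ c ↔ ∃ a < n + 1, ∀ b < n + 1, g (a, b) ≤ c := by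
  simp [mm, Finset.inf'_le_iff, Finset.sup'_le_iff]

theorem mm_add (n : ℕ) (g : ℕ × ℕ → ℝ) (c : ℝ) : mm n (fun p => g p + c) = mm n g + c :=
  eq_of_forall_ge_iff fun d => by
    rw [← le_sub_iff_add_le, mm_le, mm_le]
    simp only [le_sub_iff_add_le]

theorem mm_uc (n : ℕ) : UniformContinuous (mm n) := by
  let r : (ℕ × ℕ → ℝ) → Fin (n + 1) × Fin (n + 1) → ℝ := fun g p => g (p.1, p.2)
  let s : (Fin (n + 1) × Fin (n + 1) → ℝ) → ℕ × ℕ → ℝ := fun g p =>
    g (Fin.ofNat (n + 1) p.1, Fin.ofNat (n + 1) p.2)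
  have h1 : LipschitzWith 1 fun g => mm n (s g) := LipschitzWith.of_le_add fun g h => by
    obtain ⟨a, ha, hb⟩ := (mm_le n (s h) _).1 le_rfl
    refine (mm_le _ _ _).2 ⟨a, ha, fun b hb' => ?_⟩
    have h2 := dist_le_pi_dist g h (Fin.ofNat (n + 1) a, Fin.ofNat (n + 1) b)
    have h3 := hb b hb'
    rw [Real.dist_eq] at h2
    have := le_abs_self (g (Fin.ofNat (n + 1) a, Fin.ofNat (n + 1) b) -
      h (Fin.ofNat (n + 1) a, Fin.ofNat (n + 1) b))
    simp only [s] at h3 ⊢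
    linarith
  have h2 : mm n = (fun g => mm n (s g)) ∘ r := funext fun g => eq_of_forall_ge_iff fun d => by
    simp only [Function.comp, mm_le, r, s, Fin.val_ofNat]
    refine exists_congr fun a => and_congr_right fun ha => forall₂_congr fun b hb => ?_
    rw [Nat.mod_eq_of_lt ha, Nat.mod_eq_of_lt hb]
  rw [h2]
  exact h1.uniformContinuous.comp (uniformContinuous_pi.2 fun p => Pi.uniformContinuous_proj _ _)

theorem mm_abs (n : ℕ) (g : ℕ × ℕ → ℝ) (c : ℝ) (S : Finset (ℕ × ℕ)) (hS : S.card ≤ n)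
    (h : ∀ p ∉ S, |g p| ≤ c) : |mm n g| ≤ c := by
  have key : ∀ T : Finset ℕ, T.card ≤ n → ∃ a < n + 1, a ∉ T := fun T hT => by
    obtain ⟨a, ha, hb⟩ := Finset.exists_mem_notMem_of_card_lt_card
      (s := T) (t := Finset.range (n + 1)) (by simp; omega)
    exact ⟨a, Finset.mem_range.1 ha, hb⟩
  obtain ⟨a, ha, ha'⟩ := key (S.image Prod.fst) (Finset.card_image_le.trans hS)
  obtain ⟨b, hb, hb'⟩ := key (S.image Prod.snd) (Finset.card_image_le.trans hS)
  refine abs_le.2 ⟨?_, (mm_le _ _ _).2 ⟨a, ha, fun b _ => (abs_le.1 (h _ fun hs =>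
    ha' (Finset.mem_image_of_mem _ hs))).2⟩⟩
  obtain ⟨a, -, ha⟩ := (mm_le n g _).1 le_rfl
  exact (abs_le.1 (h (a, b) fun hs => hb' (Finset.mem_image_of_mem _ hs))).1.trans (ha b hb)

abbrev J := List Bool

def FJ : Filter J := ⨅ b : ℕ → Bool, 𝓟 (range (PiNat.res b))ᶜ

theorem br (j : J) : ∃ b, j ∈ range (PiNat.res b) := by
  induction j with
  | nil => exact ⟨fun _ => true, 0, rfl⟩
  | cons x j ih =>
    obtain ⟨b, n, rfl⟩ := ih
    refine ⟨Function.update b n x, n + 1, ?_⟩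
    rw [PiNat.res_succ, Function.update_self, PiNat.res_eq_res.2 fun m hm => Function.update_of_ne hm.ne _ _]

theorem FJc : FJ ≤ cofinite := le_cofinite_iff_compl_singleton_mem.2 fun j => by
  obtain ⟨b, hb⟩ := br j
  exact mem_iInf_of_mem b (mem_principal.2 (compl_subset_compl.2 (singleton_subset_iff.2 hb)))

theorem len (k : ℕ) : ∀ᶠ j in FJ, k ≤ j.length :=
  mem_of_superset (FJc (List.finite_length_lt Bool k).compl_mem_cofinite) fun _ h => Nat.not_lt.1 h

def F1 : Filter (J × ℕ × ℕ) where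
  sets := {A | ∃ k, ∀ᶠ j in FJ, ∃ S : Finset (ℕ × ℕ), S.card ≤ k ∧ ∀ p ∉ S, (j, p) ∈ A}
  univ_sets := ⟨0, Eventually.of_forall fun _ => ⟨∅, le_rfl, fun _ _ => trivial⟩⟩
  sets_of_superset := fun ⟨k, h⟩ hs => ⟨k, h.mono fun _ ⟨S, a, b⟩ => ⟨S, a, fun p hp => hs (b p hp)⟩⟩
  inter_sets := fun ⟨k, h⟩ ⟨l, h'⟩ => ⟨k + l, (h.and h').mono fun _ ⟨⟨S, a, b⟩, T, c, d⟩ =>
    ⟨S ∪ T, (Finset.card_union_le _ _).trans (add_le_add a c), fun p hp =>
      ⟨b p fun h => hp (Finset.mem_union_left _ h), d p fun h => hp (Finset.mem_union_right _ h)⟩⟩⟩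

theorem F1J : Tendsto Prod.fst F1 FJ := fun _ h =>
  ⟨0, Eventually.mono h fun _ hj => ⟨∅, le_rfl, fun _ _ => hj⟩⟩

noncomputable def m (g : J × ℕ × ℕ → ℝ) (j : J) : ℝ := mm j.length fun p => g (j, p)

theorem mt (g : J × ℕ × ℕ → ℝ) (h : Tendsto g F1 (𝓝 0)) : Tendsto (m g) FJ (𝓝 0) := by
  rw [Metric.nhds_basis_closedBall.tendsto_right_iff] at h ⊢
  intro e he
  obtain ⟨k, hk⟩ := h e he
  filter_upwards [hk, len k] with j ⟨S, a, b⟩ hj
  simpa [m] using mm_abs j.length _ e S (a.trans hj) fun p hp => by simpa using b p hp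

theorem m_uc (j : J) : UniformContinuous fun g => m g j :=
  (mm_uc _).comp (uniformContinuous_pi.2 fun _ => Pi.uniformContinuous_proj _ _)

theorem m_add (g : J × ℕ × ℕ → ℝ) (s t : J → ℝ) (j : J) :
    m (fun x => g x - s x.1 + t x.1) j = m g j - s j + t j := by
  simp only [m, sub_eq_add_neg, add_assoc, mm_add]

attribute [local irreducible] m

abbrev A := ℕ × J × ℕ × ℕ

def FX : Filter A := ⨆ n, map (Prod.mk n) F1

def FY : Filter (J ⊕ A) := map Sum.inl FJ ⊔ map Sum.inr FX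

theorem sw : ∃ e : (A → ℝ) ≃ᵤ (J ⊕ A → ℝ), ∀ g, Tendsto g FX (𝓝 0) ↔ Tendsto (e g) FY (𝓝 0) := by
  let r : (A → ℝ) → ℕ → J → ℝ := fun g n => m fun x => g (n, x)
  have hr : ∀ n j, UniformContinuous fun g => r g n j := fun n j =>
    (m_uc j).comp (f := fun (g : A → ℝ) (x : J × ℕ × ℕ) => g (n, x))
      (uniformContinuous_pi.2 fun _ => Pi.uniformContinuous_proj _ _)
  let q : (J ⊕ A → ℝ) → ℕ → J → ℝ := fun h n =>
    Nat.casesOn n (fun j => h (.inl j)) fun n => r (fun x => h (.inr x)) n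
  have hi : UniformContinuous fun (h : J ⊕ A → ℝ) x => h (.inr x) :=
    uniformContinuous_pi.2 fun _ => Pi.uniformContinuous_proj _ _
  have hq : ∀ n j, UniformContinuous fun h => q h n j := fun n j => by
    cases n with
    | zero => exact Pi.uniformContinuous_proj _ _
    | succ n => exact (hr n j).comp (f := fun (h : J ⊕ A → ℝ) x => h (.inr x)) hi
  let f1 : (A → ℝ) → J ⊕ A → ℝ := fun g =>
    Sum.elim (r g 0) fun x => g x - r g x.1 x.2.1 + r g (x.1 + 1) x.2.1
  let f2 : (J ⊕ A → ℝ) → A → ℝ := fun h x =>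
    h (.inr x) - r (fun x => h (.inr x)) x.1 x.2.1 + q h x.1 x.2.1
  have e1 : ∀ g n j, r (fun x => f1 g (.inr x)) n j = r g (n + 1) j := fun g n j =>
    (m_add (fun x => g (n, x)) (r g n) (r g (n + 1)) j).trans (by simp [r])
  have e2 : ∀ h n j, r (f2 h) n j = q h n j := fun h n j =>
    (m_add (fun x => h (.inr (n, x))) (r (fun x => h (.inr x)) n) (q h n) j).trans (by simp [r])
  have tx : ∀ g : A → ℝ, Tendsto g FX (𝓝 0) ↔ ∀ n, Tendsto (fun x => g (n, x)) F1 (𝓝 0) := fun g => by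
    simp only [FX, tendsto_iSup, tendsto_map'_iff]; rfl
  have ty : ∀ h : J ⊕ A → ℝ, Tendsto h FY (𝓝 0) ↔
      Tendsto (fun j => h (.inl j)) FJ (𝓝 0) ∧ Tendsto (fun x => h (.inr x)) FX (𝓝 0) := fun h => by
    simp only [FY, tendsto_sup, tendsto_map'_iff]; rfl
  have l1 : ∀ g, f2 (f1 g) = g := fun g => funext fun ⟨n, x⟩ => by
    have : q (f1 g) n x.1 = r g n x.1 := by
      cases n with
      | zero => rfl
      | succ n => exact e1 g n x.1
    simp only [f2, e1, this]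
    simp [f1]
  refine ⟨⟨⟨f1, f2, l1, fun h => funext fun x => ?_⟩, uniformContinuous_pi.2 fun x => ?_,
    uniformContinuous_pi.2 fun x => ((Pi.uniformContinuous_proj _ _).sub ((hr _ _).comp (f := fun (h : J ⊕ A → ℝ) x => h (.inr x)) hi)).add
      (hq _ _)⟩, fun g => ⟨fun h => ?_, fun h => ?_⟩⟩
  · rcases x with j | ⟨n, x⟩
    · exact e2 h 0 j
    · simp only [f1, Sum.elim_inr, e2]
      simp [f2, q]
  · rcases x with j | x
    · exact hr 0 j
    · exact ((Pi.uniformContinuous_proj _ _).sub (hr _ _)).add (hr _ _)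
  · rw [tx] at h
    refine (ty _).2 ⟨mt _ (h 0), (tx _).2 fun n => ?_⟩
    simpa [f1, r] using ((h n).sub ((mt _ (h n)).comp F1J)).add ((mt _ (h (n + 1))).comp F1J)
  · obtain ⟨h1, h2⟩ := (ty (f1 g)).1 h
    rw [tx] at h2
    rw [← l1 g]
    refine (tx _).2 fun n => ?_
    have h3 : Tendsto (q (f1 g) n) FJ (𝓝 0) := by
      cases n with
      | zero => exact h1
      | succ n => exact mt _ (h2 n)
    simpa using ((h2 n).sub ((mt _ (h2 n)).comp F1J)).add (h3.comp F1J)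

theorem mX (S : Set A) : S ∈ FX ↔ ∀ n, Prod.mk n ⁻¹' S ∈ F1 := by
  simp only [FX, mem_iSup, mem_map]

theorem FXc : FX ≤ cofinite := le_cofinite_iff_compl_singleton_mem.2 fun x => (mX _).2 fun n =>
  ⟨1, Eventually.of_forall fun j => ⟨{x.2.2}, by simp, fun p hp h => hp (by simp [← show _ = x from h])⟩⟩

theorem FYc : FY ≤ cofinite :=
  sup_le (Sum.inl_injective.tendsto_cofinite.mono_left FJc)
    (Sum.inr_injective.tendsto_cofinite.mono_left FXc)

theorem tall (S : Set A) (hS : S.Infinite) : ∃ I ⊆ S, I.Infinite ∧ Iᶜ ∈ FX := by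
  classical
  let π : A → ℕ × J := fun x => (x.1, x.2.1)
  by_cases h : (π '' S).Finite
  · refine ⟨S, Subset.rfl, hS, (mX _).2 fun n => ⟨0, ?_⟩⟩
    filter_upwards [FJc (h.image Prod.snd).compl_mem_cofinite] with j hj
    exact ⟨∅, le_rfl, fun p _ hp => hj ⟨_, ⟨_, hp, rfl⟩, rfl⟩⟩
  · obtain ⟨I, h1, h2, h3⟩ := exists_subset_bijOn S π
      |>.imp (q := fun I => I ⊆ S ∧ InjOn π I ∧ π '' I = π '' S) fun I hI =>
        ⟨hI.1, hI.2.injOn, hI.2.image_eq⟩
    refine ⟨I, h1, fun hI => h (h3 ▸ hI.image π), (mX _).2 fun n => ⟨1, Eventually.of_forall fun j => ?_⟩⟩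
    by_cases hp : ∃ p, (n, j, p) ∈ I
    · obtain ⟨p, hp⟩ := hp
      refine ⟨{p}, by simp, fun q hq hq' => hq ?_⟩
      have := h2 hq' hp rfl
      simpa using this
    · exact ⟨∅, by simp, fun q _ hq => hp ⟨q, hq⟩⟩

def a0 : A := (0, [], 0, 0)

abbrev X := PS a0 FX
abbrev Y := PS (Sum.inr a0) FY

instance : T4Space X := t4 FXc
instance : T4Space Y := t4 FYc

theorem eqv : ∃ e : (X → ℝ) ≃ᵤ (Y → ℝ), ∀ f, Continuous f ↔ Continuous (e f) := by
  obtain ⟨e1, h1⟩ := base (a := a0) FXc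
  obtain ⟨e2, h2⟩ := sw
  obtain ⟨e3, h3⟩ := base (a := Sum.inr a0) FYc
  refine ⟨(e1.trans e2).trans e3.symm, fun f => ?_⟩
  rw [h1, h2, h3]
  simp

theorem cX : Countable X := inferInstanceAs (Countable A)

theorem nY (N : Set (Set Y)) (hN : N.Countable) (h : ∀ K U : Set Y, IsCompact K → IsOpen U → K ⊆ U →
    ∃ F : Set (Set Y), F.Finite ∧ F ⊆ N ∧ K ⊆ ⋃₀ F ∧ ⋃₀ F ⊆ U) : False := by
  let s : (ℕ → Bool) → ℕ → J := fun b n => (!b n) :: PiNat.res b n
  have hs : ∀ b b' n, s b n ∈ range (PiNat.res b') → b' n ≠ b n ∧ ∀ m < n, b' m = b m := by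
    rintro b b' n ⟨k, hk⟩
    have h1 := congrArg List.length hk
    simp only [s, PiNat.res_length, List.length_cons] at h1
    subst h1
    simp only [s, PiNat.res_succ, List.cons.injEq] at hk
    exact ⟨by simp [hk.1], fun m hm => PiNat.res_eq_res.1 hk.2 hm⟩
  have ht : ∀ b, Tendsto (s b) atTop FJ := fun b => tendsto_iInf.2 fun b' => tendsto_principal.2 (by
    by_cases h : ∃ n, s b n ∈ range (PiNat.res b')
    · obtain ⟨n, hn⟩ := h
      filter_upwards [eventually_gt_atTop n] with k hk hk'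
      exact (hs _ _ _ hn).1 ((hs _ _ _ hk').2 n hk)
    · exact Eventually.of_forall fun n hn => h ⟨n, hn⟩)
  let i : J → Y := Sum.inl
  have hK : ∀ b, IsCompact (insert (show Y from Sum.inr a0) (range fun n => i (s b n))) := fun b => by
    refine Tendsto.isCompact_insert_range fun U hU => ?_
    obtain ⟨t, h1, h2, h3⟩ := mem_nhds_iff.1 hU
    exact mem_of_superset (ht b (h2 h3).1) fun n hn => h1 hn
  have hU : ∀ b, IsOpen (i '' range (PiNat.res b))ᶜ := fun b _ =>
    ⟨mem_iInf_of_mem b fun j hj ⟨k, hk, hk'⟩ => hj (Sum.inl_injective hk' ▸ hk),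
      mem_map.2 (univ_mem' fun x ⟨k, _, hk'⟩ => Sum.inl_ne_inr hk')⟩
  choose F f1 f2 f3 f4 using fun b => h _ _ (hK b) (hU b) (by
    rintro _ (rfl | ⟨n, rfl⟩) ⟨k, hk, hk'⟩
    · exact Sum.inl_ne_inr hk'
    · exact (hs b b n (Sum.inl_injective hk' ▸ hk)).1 rfl)
  have hc : (univ : Set (ℕ → Bool)).Countable := by
    refine MapsTo.countable_of_injOn (f := F) (fun b _ => ?_) (fun b _ b' _ hb => ?_)
      (countable_ofPred_finite_subset hN)
    · exact ⟨f1 b, f2 b⟩
    · by_contra hne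
      have hn := PiNat.apply_firstDiff_ne hne
      refine f4 b' (hb ▸ f3 b (Or.inr ⟨PiNat.firstDiff b b', rfl⟩)) ⟨_, ⟨PiNat.firstDiff b b' + 1, ?_⟩, rfl⟩
      simp only [s, PiNat.res_succ, List.cons.injEq]
      refine ⟨by revert hn; cases b (PiNat.firstDiff b b') <;> cases b' (PiNat.firstDiff b b') <;> simp,
        PiNat.res_eq_res.2 fun m hm => (PiNat.apply_eq_of_lt_firstDiff hm).symm⟩
  have : Uncountable (ℕ → Bool) := Cardinal.aleph0_lt_mk_iff.1 (by
    simpa using Cardinal.aleph0_lt_continuum)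
  exact not_countable (countable_univ_iff.1 hc)

end Pool.Agent.H.MP_866953
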