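import Pool.Agent.H.MP_866953.A

set_option autoImplicit false
open Set Filter Topology TopologicalSpace

namespace Pool.Agent.H.MP_866953

theorem tri {V : Type} [NormedAddCommGroup V] (j : ℕ) : ∀ H : ℕ → V → V, (∀ l, UniformContinuous (H l)) →
    (∀ l, j ≤ l → ∀ v, H l v = 0) →
    ∃ e : (ℕ → V) ≃ᵤ (ℕ → V), ∀ t l, e t l = t l - H l (t (l + 1)) := by
  induction j with
  | zero => exact fun H _ h => ⟨UniformEquiv.refl _, fun t l => by simp [h l]⟩
  | succ j ih =>
    intro H hu h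
    obtain ⟨e, he⟩ := ih (fun l => H (l + 1)) (fun l => hu _) fun l hl => h _ (by omega)
    have p := fun l : ℕ => Pi.uniformContinuous_proj (fun _ : ℕ => V) l
    have hs : UniformContinuous fun (u : ℕ → V) => e.symm fun l => u (l + 1) :=
      e.symm.uniformContinuous.comp (uniformContinuous_pi.2 fun l => p _)
    have k : ∀ t : ℕ → V, (fun l => t (l + 1) - H (l + 1) (t (l + 1 + 1))) = e fun l => t (l + 1) :=
      fun t => funext fun l => (he (fun l => t (l + 1)) l).symm
    refine ⟨⟨⟨fun t l => t l - H l (t (l + 1)), fun u l => Nat.casesOn l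
      (u 0 + H 0 (e.symm (fun l => u (l + 1)) 0)) (e.symm fun l => u (l + 1)), fun t => funext fun l => ?_,
      fun u => funext fun l => ?_⟩, uniformContinuous_pi.2 fun l => (p l).sub ((hu l).comp (p _)),
      uniformContinuous_pi.2 fun l => ?_⟩, fun _ _ => rfl⟩
    · cases l <;> simp [k]
    · cases l with
      | zero => simp
      | succ l => exact (he _ l).symm.trans (by simp)
    · cases l with
      | zero => exact (p 0).add ((hu 0).comp ((p 0).comp hs))
      | succ l => exact (p l).comp hs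

section blk
variable {j : ℕ}

abbrev V (j : ℕ) := Fin (j + 1) → ℝ

def sm (j l : ℕ) (S : Finset (Fin (j + 1))) : Prop := S.card * (l + 1) ≤ j

theorem sm.mono {l k : ℕ} {S T : Finset (Fin (j + 1))} (h : sm j l S) (hT : T ⊆ S) (hk : k ≤ l) :
    sm j k T := (Nat.mul_le_mul (Finset.card_le_card hT) (by omega)).trans h

open Classical in
noncomputable def sg (l : ℕ) (v : V j) : ℝ :=
  (Finset.univ.filter (sm j l)).inf' ⟨∅, by simp [sm]⟩ fun S => ‖fun i => if i ∈ S then 0 else v i‖

theorem sg0 (l : ℕ) (v : V j) : 0 ≤ sg l v := by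
  unfold sg
  exact (Finset.le_inf'_iff _ _).2 fun _ _ => norm_nonneg _

theorem sg_le (l : ℕ) (v : V j) {c : ℝ} (hc : 0 ≤ c) :
    sg l v ≤ c ↔ sm j l (Finset.univ.filter fun i => c < |v i|) := by
  classical
  unfold sg
  rw [Finset.inf'_le_iff]
  constructor
  · rintro ⟨S, hS, h⟩
    refine (Finset.mem_filter.1 hS).2.mono (fun i hi => ?_) le_rfl
    by_contra hi'
    have := (pi_norm_le_iff_of_nonneg hc).1 h i
    rw [if_neg hi'] at this
    exact not_le.2 (Finset.mem_filter.1 hi).2 this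
  · intro h
    refine ⟨_, Finset.mem_filter.2 ⟨Finset.mem_univ _, h⟩, (pi_norm_le_iff_of_nonneg hc).2 fun i => ?_⟩
    split_ifs with hi
    · simpa using hc
    · simpa using hi

theorem sg_lip (l : ℕ) (v w : V j) : sg l v ≤ sg l w + ‖v - w‖ := by
  refine (sg_le l v (add_nonneg (sg0 _ _) (norm_nonneg _))).2
    (((sg_le l w (sg0 _ _)).1 le_rfl).mono (fun i hi => ?_) le_rfl)
  simp only [Finset.mem_filter, Finset.mem_univ, true_and] at hi ⊢
  have h1 := norm_le_pi_norm (v - w) i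
  have h2 := abs_sub_abs_le_abs_sub (v i) (w i)
  rw [Pi.sub_apply, Real.norm_eq_abs] at h1
  linarith

noncomputable def HH (l : ℕ) (v : V j) : V j := fun i => v i - max (-sg l v) (min (v i) (sg l v))

theorem H_uc (l : ℕ) : UniformContinuous (HH (j := j) l) := by
  have h1 : UniformContinuous (sg (j := j) l) :=
    (LipschitzWith.of_le_add fun v w => by rw [dist_eq_norm]; exact sg_lip l v w).uniformContinuous
  refine uniformContinuous_pi.2 fun i => ?_
  have p := Pi.uniformContinuous_proj (fun _ : Fin (j + 1) => ℝ) i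
  exact p.sub (lipschitzWith_max.uniformContinuous.comp
    (h1.neg.prodMk (lipschitzWith_min.uniformContinuous.comp (p.prodMk h1))))

theorem H_d (l : ℕ) (v : V j) : ‖v - HH l v‖ ≤ sg l v :=
  (pi_norm_le_iff_of_nonneg (sg0 _ _)).2 fun i => by
    have := sg0 l v
    simp only [HH, Pi.sub_apply, sub_sub_cancel, Real.norm_eq_abs]
    exact abs_le.2 ⟨le_max_left _ _, max_le (by linarith) (min_le_right _ _)⟩

theorem H_s (l : ℕ) (v : V j) (i : Fin (j + 1)) (h : |v i| ≤ sg l v) : HH l v i = 0 := by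
  rw [abs_le] at h
  simp only [HH, min_eq_left h.2, max_eq_right h.1, sub_self]

theorem H_sg {k l : ℕ} (hk : k ≤ l) (v w : V j) : sg k v ≤ ‖v - HH l w‖ := by
  have h : sg k (HH l w) ≤ 0 := (sg_le _ _ le_rfl).2 (((sg_le l w (sg0 _ _)).1 le_rfl).mono
    (fun i hi => by
      simp only [Finset.mem_filter, Finset.mem_univ, true_and] at hi ⊢
      by_contra h
      simp [H_s l w i (not_lt.1 h)] at hi) hk)
  have := sg_lip k v (HH l w)
  linarith

theorem H_z {l : ℕ} (hl : j ≤ l) (v : V j) : HH l v = 0 := funext fun i => H_s l v i (by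
  by_contra h
  have h1 := ((sg_le l v (sg0 _ _)).1 le_rfl).mono (T := {i}) (by simpa using h) le_rfl
  simp only [sm, Finset.card_singleton] at h1
  omega)

end blk

abbrev I := Σ j : ℕ, Fin (j + 1)

def bk (g : I → ℝ) (j : ℕ) : V j := fun i => g ⟨j, i⟩

def Z (g : I → ℝ) : Prop := Tendsto (fun j => ‖bk g j‖) atTop (𝓝 0)

open Classical in
def FD : Filter I where
  sets := {A | ∀ l, ∀ᶠ j in atTop, sm j l (Finset.univ.filter fun i => (⟨j, i⟩ : I) ∉ A)}
  univ_sets := fun l => by simp [sm]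
  sets_of_superset := fun h hs l => (h l).mono fun j hj => hj.mono (fun i hi => by
    simp only [Finset.mem_filter, Finset.mem_univ, true_and] at hi ⊢
    exact fun h => hi (hs h)) le_rfl
  inter_sets := fun {A B} h h' l => ((h (2 * l + 1)).and (h' (2 * l + 1))).mono fun j ⟨a, b⟩ => by
    have h1 := Finset.card_union_le (Finset.univ.filter fun i => (⟨j, i⟩ : I) ∉ A)
      (Finset.univ.filter fun i => (⟨j, i⟩ : I) ∉ B)
    rw [← Finset.filter_or] at h1
    simp only [sm, mem_inter_iff, not_and_or] at a b ⊢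
    have h2 := Nat.mul_le_mul_right (l + 1) h1
    convert h2.trans (c := j) (by nlinarith)

theorem tFD (g : I → ℝ) : Tendsto g FD (𝓝 0) ↔ ∀ l, Tendsto (fun j => sg l (bk g j)) atTop (𝓝 0) := by
  simp only [Metric.nhds_basis_closedBall.tendsto_right_iff]
  rw [forall_comm]
  refine forall_congr' fun e => ?_
  rw [forall_comm]
  refine forall_congr' fun he => forall_congr' fun l => eventually_congr (Eventually.of_forall fun j => ?_)
  simp only [Metric.mem_closedBall, dist_zero_right, Real.norm_eq_abs, abs_of_nonneg (sg0 _ _),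
    sg_le _ _ he.le, mem_ofPred_eq, not_le, bk]

theorem lemA : ∃ e : (ℕ → I → ℝ) ≃ᵤ (I → ℝ) × (ℕ → I → ℝ),
    ∀ u, (∀ l, Z (u l)) ↔ Tendsto (e u).1 FD (𝓝 0) ∧ ∀ l, Z ((e u).2 l) := by
  choose e he using fun j => tri j (HH (j := j)) H_uc fun l => H_z
  have p : ∀ l, UniformContinuous fun u : ℕ → I → ℝ => u l := Pi.uniformContinuous_proj _
  have p' : ∀ i, UniformContinuous fun u : I → ℝ => u i := Pi.uniformContinuous_proj _
  have q : ∀ j, UniformContinuous fun (u : ℕ → I → ℝ) l => bk (u l) j := fun j =>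
    uniformContinuous_pi.2 fun l => uniformContinuous_pi.2 fun i => (p' _).comp (p l)
  have r : ∀ j l i, UniformContinuous fun u : ℕ → V j => u l i := fun j l i =>
    (Pi.uniformContinuous_proj _ i).comp (Pi.uniformContinuous_proj (fun _ => V j) l)
  let θ : (ℕ → I → ℝ) ≃ᵤ (ℕ → I → ℝ) :=
    ⟨⟨fun t l x => e x.1 (fun l => bk (t l) x.1) l x.2, fun t l x => (e x.1).symm (fun l => bk (t l) x.1) l x.2,
      fun t => funext₂ fun l x => congrFun₂ ((e x.1).symm_apply_apply fun l => bk (t l) x.1) l x.2,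
      fun t => funext₂ fun l x => congrFun₂ ((e x.1).apply_symm_apply fun l => bk (t l) x.1) l x.2⟩,
      uniformContinuous_pi.2 fun l => uniformContinuous_pi.2 fun x =>
        (r _ l x.2).comp ((e x.1).uniformContinuous.comp (q x.1)),
      uniformContinuous_pi.2 fun l => uniformContinuous_pi.2 fun x =>
        (r _ l x.2).comp ((e x.1).symm.uniformContinuous.comp (q x.1))⟩
  have hθ : ∀ t l j, bk (θ t l) j = bk (t l) j - HH l (bk (t (l + 1)) j) := fun t l j =>
    he j (fun l => bk (t l) j) l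
  let η : (ℕ → I → ℝ) ≃ᵤ (I → ℝ) × (ℕ → I → ℝ) :=
    ⟨⟨fun t => (t 0, fun l => t (l + 1) - t 0), fun s l => Nat.casesOn l s.1 fun l => s.2 l + s.1,
      fun t => funext fun l => by cases l <;> simp, fun s => by simp⟩,
      (p 0).prodMk (uniformContinuous_pi.2 fun l => (p _).sub (p 0)),
      uniformContinuous_pi.2 fun l => by
        cases l with
        | zero => exact uniformContinuous_fst
        | succ l => exact ((p l).comp uniformContinuous_snd).add uniformContinuous_fst⟩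
  refine ⟨θ.symm.trans η, fun u => ?_⟩
  obtain ⟨t, rfl⟩ := θ.surjective u
  have : (θ.symm.trans η) (θ t) = (t 0, fun l => t (l + 1) - t 0) := congrArg η (θ.symm_apply_apply t)
  rw [this, tFD]
  simp only [Z, hθ]
  have b : ∀ (f g : I → ℝ) j, bk (f - g) j = bk f j - bk g j := fun _ _ _ => rfl
  simp only [b]
  constructor
  · intro h
    have h1 : ∀ l, Tendsto (fun j => ‖bk (t l) j - bk (t 0) j‖) atTop (𝓝 0) := fun l => by
      induction l with
      | zero => simp
      | succ l ih =>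
        refine squeeze_zero (fun _ => norm_nonneg _) (fun j => ?_) (by simpa using (ih.add (h l)).add (h (l + 1)))
        have h2 := (H_d l (bk (t (l + 1)) j)).trans (H_sg l.le_succ _ (bk (t (l + 1 + 1)) j))
        have h3 := norm_sub_le_norm_sub_add_norm_sub (bk (t (l + 1)) j) (HH l (bk (t (l + 1)) j)) (bk (t l) j)
        have h4 := norm_sub_le_norm_sub_add_norm_sub (bk (t (l + 1)) j) (bk (t l) j) (bk (t 0) j)
        rw [norm_sub_rev (HH _ _)] at h3
        linarith
    refine ⟨fun l => squeeze_zero (fun _ => sg0 _ _) (fun j => ?_) (by simpa using (h l).add (h1 l)),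
      fun l => h1 _⟩
    have h2 := sg_lip l (bk (t 0) j) (bk (t l) j)
    have h3 := H_sg (le_refl l) (bk (t l) j) (bk (t (l + 1)) j)
    rw [norm_sub_rev] at h2
    linarith
  · rintro ⟨h1, h2⟩ l
    have h3 : Tendsto (fun j => ‖bk (t l) j - bk (t 0) j‖) atTop (𝓝 0) := by
      cases l with
      | zero => simp
      | succ l => exact h2 l
    refine squeeze_zero (fun _ => norm_nonneg _) (fun j => ?_)
      (by simpa using ((h3.add (h2 l)).add (h2 l)).add (h1 l))
    have h4 := (H_d l (bk (t (l + 1)) j)).trans (sg_lip l _ (bk (t 0) j))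
    have h5 := norm_sub_le_norm_sub_add_norm_sub (bk (t l) j) (bk (t (l + 1)) j) (HH l (bk (t (l + 1)) j))
    have h6 := norm_sub_le_norm_sub_add_norm_sub (bk (t l) j) (bk (t 0) j) (bk (t (l + 1)) j)
    rw [norm_sub_rev (bk (t 0) j)] at h6
    linarith

theorem fb (k : ℕ) : {x : I | x.1 < k}.Finite := by
  refine ((finite_Iio k).biUnion fun j _ => finite_range (Sigma.mk (β := fun j => Fin (j + 1)) j)).subset ?_
  rintro ⟨j, i⟩ h
  exact mem_biUnion h ⟨i, rfl⟩

theorem Zc (g : I → ℝ) : Z g ↔ Tendsto g cofinite (𝓝 0) := by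
  simp only [Z, Metric.nhds_basis_closedBall.tendsto_right_iff]
  refine forall₂_congr fun e he => ?_
  simp only [Metric.mem_closedBall, dist_zero_right, norm_norm, pi_norm_le_iff_of_nonneg he.le, bk]
  constructor
  · intro h
    obtain ⟨k, hk⟩ := eventually_atTop.1 h
    exact mem_of_superset (fb k).compl_mem_cofinite fun x hx => hk x.1 (Nat.not_lt.1 hx) x.2
  · intro h
    rw [← Nat.cofinite_eq_atTop]
    refine mem_of_superset ((eventually_cofinite.1 h).image Sigma.fst).compl_mem_cofinite fun j hj i => ?_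
    by_contra hi
    exact hj ⟨⟨j, i⟩, hi, rfl⟩

theorem FD1 (S : Set I) (h : InjOn Sigma.fst S) : Sᶜ ∈ FD := fun l => by
  filter_upwards [eventually_ge_atTop (l + 1)] with j hj
  refine (Nat.mul_le_mul_right _ (Finset.card_le_one.2 fun a ha b hb => ?_)).trans (by omega)
  simp only [Finset.mem_filter, Finset.mem_univ, true_and, mem_compl_iff, not_not] at ha hb
  simpa using h ha hb rfl

theorem FDc : FD ≤ cofinite := le_cofinite_iff_compl_singleton_mem.2 fun x => FD1 _ (injOn_singleton _ _)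

theorem tallD (S : Set I) (hS : S.Infinite) : ∃ T ⊆ S, T.Infinite ∧ Tᶜ ∈ FD := by
  obtain ⟨T, h1, h2⟩ := exists_subset_bijOn S Sigma.fst
  refine ⟨T, h1, fun hT => hS ?_, FD1 T h2.injOn⟩
  obtain ⟨k, hk⟩ := (h2.image_eq ▸ hT.image Sigma.fst).bddAbove
  exact (fb (k + 1)).subset fun x hx => Nat.lt_succ_of_le (hk ⟨x, hx, rfl⟩)

theorem FDn : ∅ ∉ FD := fun h => by
  obtain ⟨j, hj⟩ := (h 0).exists
  simp [sm] at hj

def bm (n k : ℕ) (y : ℝ) : ℝ := max 0 (1 - 4 * |2 ^ (k + 1) * (y - n) - 1|)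

theorem bm_c (n k : ℕ) : Continuous (bm n k) := by unfold bm; fun_prop

theorem bm_1 (n k : ℕ) (y : ℝ) : |bm n k y| ≤ 1 := by
  have := abs_nonneg (2 ^ (k + 1) * (y - n) - 1)
  exact abs_le.2 ⟨by unfold bm; exact le_max_of_le_left (by norm_num), max_le zero_le_one (by linarith)⟩

theorem bm_s {n k : ℕ} {y : ℝ} (h : bm n k y ≠ 0) :
    3 / 4 < 2 ^ (k + 1) * (y - n) ∧ 2 ^ (k + 1) * (y - n) < 5 / 4 ∧ n < y ∧ y < n + 1 := by
  have h1 : |2 ^ (k + 1) * (y - n) - 1| < 1 / 4 := by
    by_contra h'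
    exact h (max_eq_left (by linarith))
  rw [abs_lt] at h1
  have h2 : (2 : ℝ) ≤ 2 ^ (k + 1) := le_self_pow₀ one_le_two (by omega)
  have h3 : 0 < y - n := by
    by_contra h3
    nlinarith
  refine ⟨by linarith, by linarith, by linarith, by nlinarith⟩

theorem bm_u {n k n' k' : ℕ} {y : ℝ} (h : bm n k y ≠ 0) (h' : bm n' k' y ≠ 0) : n = n' ∧ k = k' := by
  obtain ⟨a, b, c, d⟩ := bm_s h
  obtain ⟨a', b', c', d'⟩ := bm_s h'
  have h1 : n < n' + 1 := by exact_mod_cast c.trans d'
  have h2 : n' < n + 1 := by exact_mod_cast c'.trans d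
  obtain rfl : n = n' := by omega
  have key : ∀ k k' : ℕ, 3 / 4 < 2 ^ (k + 1) * (y - n) → 2 ^ (k' + 1) * (y - n) < 5 / 4 → k' ≤ k := by
    intro k k' a b
    by_contra hk
    have : (2 : ℝ) ^ (k + 1 + 1) ≤ 2 ^ (k' + 1) := pow_le_pow_right₀ one_le_two (by omega)
    rw [pow_succ] at this
    nlinarith
  exact ⟨rfl, le_antisymm (key _ _ a' b) (key _ _ a b')⟩

theorem ext : ∃ (r : (ℝ → ℝ) → ℕ → I → ℝ) (s : (ℕ → I → ℝ) → ℝ → ℝ), UniformContinuous r ∧
    UniformContinuous s ∧ (∀ u, r (s u) = u) ∧ (∀ f g h, r (f - g + h) = r f - r g + r h) ∧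
    (∀ f, Continuous f → ∀ l, Z (r f l)) ∧ ∀ u, (∀ l, Z (u l)) → Continuous (s u) := by
  classical
  obtain ⟨ι, hι⟩ := exists_injective_nat I
  let β : ℕ × I → ℝ → ℝ := fun p => bm p.1 (ι p.2)
  have hβ : ∀ p q y, β p y ≠ 0 → β q y ≠ 0 → p = q := fun p q y h h' =>
    Prod.ext (bm_u h h').1 (hι (bm_u h h').2)
  let pt : ℕ → I → ℝ := fun n i => n + (1 / 2) ^ (ι i + 1)
  have hp : ∀ n i, β (n, i) (pt n i) = 1 := fun n i => by
    simp only [β, bm, pt, add_sub_cancel_left, ← mul_pow]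
    norm_num
  have hn : ∀ p (n : ℕ), β p n = 0 := fun p n => by
    by_contra h
    obtain ⟨-, -, c, d⟩ := bm_s h
    have h1 : p.1 < n := by exact_mod_cast c
    have h2 : n < p.1 + 1 := by exact_mod_cast d
    omega
  have : ∀ y, ∃ p, ∀ q, β q y ≠ 0 → q = p := fun y => by
    by_cases h : ∃ p, β p y ≠ 0
    · obtain ⟨p, hp⟩ := h
      exact ⟨p, fun q hq => hβ _ _ _ hq hp⟩
    · exact ⟨(0, ⟨0, 0⟩), fun q hq => absurd ⟨q, hq⟩ h⟩
  choose c hc using this
  refine ⟨fun f n i => f (pt n i) - f n, fun u y => u (c y).1 (c y).2 * β (c y) y,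
    uniformContinuous_pi.2 fun n => uniformContinuous_pi.2 fun i =>
      (Pi.uniformContinuous_proj _ _).sub (Pi.uniformContinuous_proj _ _),
    uniformContinuous_pi.2 fun y => ?_, fun u => funext₂ fun n i => ?_,
    fun f g h => funext₂ fun n i => ?_, fun f hf n => (Zc _).2 ?_, fun u hu => ?_⟩
  · exact ((Pi.uniformContinuous_proj (fun _ : I => ℝ) (c y).2).comp
      (Pi.uniformContinuous_proj (fun _ : ℕ => I → ℝ) (c y).1)).mul_const' _
  · simp only [← hc (pt n i) (n, i) (by rw [hp]; exact one_ne_zero), hp, hn]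
    simp
  · simp only [Pi.add_apply, Pi.sub_apply]; ring
  · rw [tendsto_sub_nhds_zero_iff]
    refine (hf.tendsto _).comp ?_
    have h1 : Tendsto ι cofinite atTop := Nat.cofinite_eq_atTop ▸ hι.tendsto_cofinite
    simpa [pt] using ((tendsto_pow_atTop_nhds_zero_of_lt_one (r := (1 / 2 : ℝ)) (by norm_num)
      (by norm_num)).comp ((tendsto_add_atTop_nat 1).comp h1)).const_add (n : ℝ)
  · refine continuous_of_locally_uniform_approx_of_continuousAt fun x U hU => ?_
    obtain ⟨e, he, hU⟩ := Metric.mem_uniformity_dist.1 hU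
    obtain ⟨m, hm⟩ := exists_nat_gt x
    have hf : (⋃ n ∈ Iio m, Prod.mk n '' {i | ¬ dist (u n i) 0 < e}).Finite :=
      (finite_Iio m).biUnion fun n _ =>
        (eventually_cofinite.1 (Metric.tendsto_nhds.1 ((Zc _).1 (hu n)) e he)).image _
    refine ⟨Iio m, Iio_mem_nhds hm, fun y => ∑ p ∈ hf.toFinset, u p.1 p.2 * β p y,
      (continuous_finsetSum _ fun p _ => continuous_const.mul (bm_c _ _)).continuousAt,
      fun y hy => hU ?_⟩
    beta_reduce
    by_cases h : c y ∈ hf.toFinset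
    · rw [Finset.sum_eq_single_of_mem (c y) h fun q _ hq => by
        rw [not_not.1 (_root_.mt (hc y q) hq), mul_zero], dist_self]
      exact he
    · rw [Finset.sum_eq_zero fun q hq => by
        rw [not_not.1 (_root_.mt (hc y q) (by rintro rfl; exact h hq)), mul_zero], dist_zero_right]
      by_cases h0 : β (c y) y = 0
      · simpa [h0] using he
      · have h1 : (c y).1 < m := by exact_mod_cast (bm_s h0).2.2.1.trans hy
        have h2 : |u (c y).1 (c y).2| < e := by
          by_contra h2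
          exact h (hf.mem_toFinset.2 (mem_biUnion h1 ⟨(c y).2, by simpa using h2, rfl⟩))
        rw [Real.norm_eq_abs, abs_mul]
        exact (mul_le_of_le_one_right (abs_nonneg _) (bm_1 _ _ _)).trans_lt h2

abbrev D := PS (⟨0, 0⟩ : I) FD

instance : T4Space D := t4 FDc

instance : T35Space (ℝ ⊕ D) := by
  have : IsEmbedding (Sum.elim (fun y : ℝ => ((y, (⟨0, 0⟩ : I)), (0 : ℝ)))
      fun x : D => (((0 : ℝ), x), (1 : ℝ)) : ℝ ⊕ D → (ℝ × D) × ℝ) := by
    refine IsEmbedding.sumElim_of_separatedNhds ((isEmbedding_prodMkLeft _).comp (isEmbedding_prodMkLeft _))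
      ((isEmbedding_prodMkLeft _).comp (isEmbedding_prodMkRight _)) ?_
    refine ⟨{p | p.2 < 1 / 2}, {p | 1 / 2 < p.2}, isOpen_lt continuous_snd continuous_const,
      isOpen_lt continuous_const continuous_snd, ?_, ?_, ?_⟩
    · rintro _ ⟨y, rfl⟩; norm_num
    · rintro _ ⟨y, rfl⟩; norm_num
    · exact disjoint_left.2 fun p (h1 : p.2 < 1 / 2) (h2 : 1 / 2 < p.2) => lt_asymm h1 h2
  exact this.t35Space

theorem eqR : Nonempty ({g : ℝ → ℝ // Continuous g} ≃ᵤ {g : ℝ ⊕ D → ℝ // Continuous g}) := by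
  obtain ⟨r, s, ur, us, rs, ra, rc, sc⟩ := ext
  obtain ⟨e, he⟩ := lemA
  obtain ⟨b, hb⟩ := base (a := (⟨0, 0⟩ : I)) FDc
  let f1 : (ℝ → ℝ) → ℝ ⊕ D → ℝ := fun f => Sum.elim (f - s (r f) + s (e (r f)).2) (b.symm (e (r f)).1)
  let f2 : (ℝ ⊕ D → ℝ) → ℝ → ℝ := fun g =>
    g ∘ .inl - s (r (g ∘ .inl)) + s (e.symm (b (g ∘ .inr), r (g ∘ .inl)))
  have l1 : ∀ f, f2 (f1 f) = f := fun f => by simp [f1, f2, ra, rs]
  have l2 : ∀ g, f1 (f2 g) = g := fun g => by simp [f1, f2, ra, rs]
  have u1 : UniformContinuous f1 := by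
    have h := e.uniformContinuous.comp ur
    refine uniformContinuous_pi.2 ?_
    rintro (x | x)
    · exact (Pi.uniformContinuous_proj _ x).comp ((uniformContinuous_id.sub (us.comp ur)).add
        (us.comp (uniformContinuous_snd.comp h)))
    · exact (Pi.uniformContinuous_proj _ x).comp (b.symm.uniformContinuous.comp
        (uniformContinuous_fst.comp h))
  have u2 : UniformContinuous f2 := by
    have h1 : UniformContinuous fun g : ℝ ⊕ D → ℝ => g ∘ Sum.inl :=
      uniformContinuous_pi.2 fun _ => Pi.uniformContinuous_proj _ _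
    have h2 : UniformContinuous fun g : ℝ ⊕ D → ℝ => g ∘ Sum.inr :=
      uniformContinuous_pi.2 fun _ => Pi.uniformContinuous_proj _ _
    exact (h1.sub (us.comp (ur.comp h1))).add (us.comp (e.symm.uniformContinuous.comp
      ((b.uniformContinuous.comp h2).prodMk (ur.comp h1))))
  have c1 : ∀ f, Continuous f → Continuous (f1 f) := fun f hf => by
    have h := (he _).1 (rc f hf)
    exact ((hf.sub (sc _ (rc f hf))).add (sc _ h.2)).sumElim ((hb _).2 (by simpa using h.1))
  have c2 : ∀ g, Continuous g → Continuous (f2 g) := fun g hg => by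
    have h1 := hg.comp continuous_inl
    refine (h1.sub (sc _ (rc _ h1))).add (sc _ ((he _).2 ?_))
    simpa using ⟨(hb _).1 (hg.comp continuous_inr), rc _ h1⟩
  exact ⟨UniformEquiv.subtype ⟨⟨f1, f2, l1, l2⟩, u1, u2⟩ fun f =>
    ⟨c1 f, fun h => l1 f ▸ c2 _ h⟩⟩

def bad : Set (ℝ ⊕ D) := Sum.inr '' {(⟨0, 0⟩ : I)}ᶜ

theorem bad1 : ¬ IsClosed bad := fun h => by
  have h1 := (h.preimage continuous_inr).isOpen_compl
  rw [bad, preimage_image_eq _ Sum.inr_injective, compl_compl] at h1
  exact FDn (mem_of_superset (inter_mem (h1 rfl) (FDc (finite_singleton (⟨0, 0⟩ : I)).compl_mem_cofinite))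
    fun x hx => hx.2 hx.1)

theorem bad2 (C : Set (ℝ ⊕ D)) (hC : IsCompact C) : IsClosed (bad ∩ C) := by
  refine Finite.isClosed (((fin tallD _ (IsClosedEmbedding.inr.isCompact_preimage hC)).image
    Sum.inr).subset ?_)
  rintro _ ⟨⟨x, -, rfl⟩, h⟩
  exact ⟨x, h, rfl⟩

end Pool.Agent.H.MP_866953
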